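import Pool.Agent.H52.XR2.S1

/-!
# Project XR2, row ARC: the combinatorial structure of a planar mate
-/

set_option autoImplicit false

open MeasureTheory Set Filter Topology Metric Asymptotics
open scoped Real ENNReal RealInnerProductSpace

namespace Pool.XR2

open Pool.Agent.H45.XR

namespace ArcAux

lemma noSeg_add_pi {C : Set ℂ} {φ : ℝ} (h : NoSeg C φ) : NoSeg C (φ + π) := by
  have ht : ∀ z : ℂ, tc (φ + π) z = - tc φ z := by
    intro z
    simp only [tc, Real.cos_add_pi, Real.sin_add_pi]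
    ring
  intro p hp q hq hne he
  rw [ht, ht, neg_inj] at he
  obtain ⟨z, hz, hz'⟩ := h p hp q hq hne he
  exact ⟨z, hz, by rw [ht, ht, hz']⟩

/-- a word with period 1 which changes sign under a reflection vanishes -/
lemma word_zero {w : ℤ → ℤ} (h1 : ∀ x, w (x + 1) = w x) {c : ℤ}
    (hc : ∀ x, w (c - 1 - x) = - w x) : ∀ x, w x = 0 := by
  have hk : ∀ (k : ℕ) (x : ℤ), w (x + k) = w x := by
    intro k
    induction k with
    | zero => intro x; simp
    | succ k ih =>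
      intro x
      have h2 : x + ((k + 1 : ℕ) : ℤ) = (x + k) + 1 := by push_cast; ring
      rw [h2, h1, ih]
  have hall : ∀ x y : ℤ, x ≤ y → w y = w x := by
    intro x y hxy
    obtain ⟨k, hk'⟩ := Int.eq_ofNat_of_zero_le (sub_nonneg.2 hxy)
    have h3 : y = x + k := by linarith
    rw [h3, hk]
  intro x
  have h4 := hc x
  have h5 : w (c - 1 - x) = w x := by
    rcases le_total (c - 1 - x) x with h6 | h6
    · exact (hall _ _ h6).symm
    · exact hall _ _ h6
  omega

/-- all points of the cycle are tips of one direction: impossible -/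
lemma all_tips {C C' : Set ℂ} {φ₀ φ₁ φ : ℝ} (h : PM C C' φ₀ φ₁) {M : ℕ} {v : ℤ → ℝ} {c : ℤ}
    {w : ℤ → ℤ} (hM : 0 < M) (hv : StrictMono v) (hvp : ∀ x, v (x + M) = v x + 2 * π)
    (hvE : ∀ x, v x ∈ EE C C') (hσ : ∀ x, fl (C ∩ C') φ (v x) = v (c - x))
    (hwM : ∀ x, w (x + M) = w x) (hwc : ∀ x, w (c - 1 - x) = - w x)
    (hw0 : ∀ x, w x ≠ 0 ∨ w (x - 1) ≠ 0)
    (hwg : ∀ x, w x ≠ 0 → Ioo (v x) (v (x + 1)) ∩ EE C C' = ∅)
    (hF : ∀ x, Fx (fl (C ∩ C') φ) (v x)) : False := by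
  have hvk : ∀ (x k : ℤ), v (x + k * M) = v x + k * (2 * π) := by
    intro x k
    induction k using Int.induction_on with
    | zero => simp
    | succ n ih =>
      have h1 : x + ((n : ℤ) + 1) * M = (x + n * M) + M := by ring
      rw [h1, hvp, ih]
      push_cast
      ring
    | pred n ih =>
      have h1 : x + (-(n : ℤ)) * M = (x + (-(n : ℤ) - 1) * M) + M := by ring
      rw [h1, hvp] at ih
      have h2 : v (x + (-(n : ℤ) - 1) * M) = v x + ((-(n : ℤ) : ℤ) : ℝ) * (2 * π) - 2 * π := by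
        linarith
      rw [h2]
      push_cast
      ring
  have hk : ∀ x, ∃ k : ℤ, c - x = x + k * M := by
    intro x
    obtain ⟨k, hk⟩ := hF x
    rw [hσ, ← hvk] at hk
    exact ⟨k, hv.injective hk⟩
  obtain ⟨k0, h0⟩ := hk 0
  obtain ⟨k1, h1⟩ := hk 1
  have hdiv : (M : ℤ) ∣ 2 := ⟨k0 - k1, by linarith⟩
  have hM2 : M = 1 ∨ M = 2 := by
    have h2 : M ∣ 2 := by exact_mod_cast hdiv
    exact (Nat.dvd_prime Nat.prime_two).1 h2
  rcases hM2 with hM1 | hM2
  · subst hM1
    have := word_zero (w := w) (fun x => by simpa using hwM x) hwc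
    rcases hw0 0 with h3 | h3
    · exact h3 (this _)
    · exact h3 (this _)
  · subst hM2
    have hw2 : ∀ (x k : ℤ), w (x + k * 2) = w x := by
      intro x k
      induction k using Int.induction_on with
      | zero => simp
      | succ n ih =>
        have h1 : x + ((n : ℤ) + 1) * 2 = (x + n * 2) + ((2 : ℕ) : ℤ) := by push_cast; ring
        rw [h1, hwM, ih]
      | pred n ih =>
        have h1 : x + (-(n : ℤ)) * 2 = (x + (-(n : ℤ) - 1) * 2) + ((2 : ℕ) : ℤ) := by
          push_cast; ring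
        rw [h1, hwM] at ih
        exact ih
    have hc2 : c = k0 * 2 := by
      have h3 := h0
      push_cast at h3
      linarith
    have h10 : w 1 = - w 0 := by
      have h3 := hwc 0
      have h4 : c - 1 - 0 = 1 + (k0 - 1) * 2 := by rw [hc2]; ring
      rw [h4, hw2] at h3
      exact h3
    have hm1 : w (-1) = w 1 := by
      have h3 := hw2 (-1) 1
      norm_num at h3
      exact h3.symm
    have hne0 : w 0 ≠ 0 := by
      rcases hw0 0 with h3 | h3
      · exact h3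
      · norm_num at h3
        rw [hm1, h10] at h3
        simpa using h3
    have hne1 : w 1 ≠ 0 := by
      rw [h10]
      simpa using hne0
    have hg0 := hwg 0 hne0
    have hg1 := hwg 1 hne1
    have hv2 : v 2 = v 0 + 2 * π := by
      have h3 := hvp 0
      norm_num at h3
      exact h3
    have hv01 : v 0 < v 1 := hv (by norm_num)
    have hv12 : v 1 < v 2 := hv (by norm_num)
    norm_num at hg0 hg1
    rw [hv2] at hv12 hg1
    exact two_points h.b h.b' h.h01 h.h10 h.x0 h.x1 hv01 hv12 (hvE 0) (hvE 1) hg0 hg1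

end ArcAux

open ArcAux

theorem t_arc (hFLX : FLXStmt) (hFLB : FLBStmt) (hMNF : MNFStmt) (hWFL : WFLStmt) : ARCStmt := by
  intro C C' φ₀ φ₁ h hne
  obtain ⟨hW, hN0, -, hm0, -, -, -, -, hP0⟩ := hWFL C C' φ₀ h.b h.b' h.x0 h.n0
  obtain ⟨-, hN1, -, hm1, -, -, -, -, hP1⟩ := hWFL C C' φ₁ h.b h.b' h.x1 h.n1
  have hF0 := (hFLX _ _ hW hN0).1
  have hF1 := (hFLX _ _ hW hN1).1
  have hV := sameX_volume h.b.cpt h.b'.cpt h.x0
  have hEne : (EE C C').Nonempty := by
    by_contra hcon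
    rw [Set.not_nonempty_iff_eq_empty] at hcon
    have h1 := Psi_ne (a := 0) (b := 0 + 2 * π) h.b h.b' (by linarith [Real.pi_pos])
      (by rw [hcon, Set.inter_empty])
    exact h1 (Psi_periodic h.b h.b' hV 0).symm
  obtain ⟨M, v, c, w, hM, hv, hvp, hvE, hσ, hwM, hwc, hw0, hwg⟩ :=
    arcs (EE_closed h.b h.b') (fun θ => EE_periodic θ) hEne (EE_ne_univ h.b h.b' hne)
      (Psi_cont h.b h.b') (Psi_periodic h.b h.b' hV)
      (fun a _ b _ hab hh => Psi_ne h.b h.b' hab hh) (ι := Fin 2)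
      (![fl (C ∩ C') φ₀, fl (C ∩ C') φ₁])
      (by intro i; fin_cases i; exacts [hm0, hm1])
      (by intro i θ _; fin_cases i; exacts [hF0.inv θ, hF1.inv θ])
      (by intro i; fin_cases i; exacts [hF0.anti.strictAntiOn _, hF1.anti.strictAntiOn _])
      (by intro i θ _; fin_cases i; exacts [hF0.per θ, hF1.per θ])
      (by intro i; fin_cases i; exacts [hP0, hP1])
  have hs0 : ∀ x, fl (C ∩ C') φ₀ (v x) = v (c 0 - x) := fun x => hσ 0 x
  have hs1 : ∀ x, fl (C ∩ C') φ₁ (v x) = v (c 1 - x) := fun x => hσ 1 x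
  have hw01 : ∀ y, w (y + (c 1 - c 0)) = w y := by
    intro y
    have h1 := hwc 0 (c 0 - 1 - y)
    have h2 := hwc 1 (c 0 - 1 - y)
    have h3 : c 0 - 1 - (c 0 - 1 - y) = y := by ring
    have h4 : c 1 - 1 - (c 0 - 1 - y) = y + (c 1 - c 0) := by ring
    rw [h3] at h1
    rw [h4] at h2
    rw [h1, h2]
  have hnz : ¬ ∀ x, w x = 0 := by
    intro h1
    rcases hw0 0 with h3 | h3
    · exact h3 (h1 _)
    · exact h3 (h1 _)
  have hNp := noSeg_add_pi hN0
  have hflp : ∀ x, fl (C ∩ C') (φ₀ + π) (v x) = v (c 0 - x + M) := by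
    intro x
    rw [(hFLB _ _ hW hN0).2.2.1, hs0, hvp]
  -- the number of steps
  have he0 : c 0 ≤ c 1 := by
    have h1 := (hMNF (C ∩ C') φ₀ φ₁ (v 0) hW hN0 hN1 h.h01).1
    rw [hs0, hs1, hv.le_iff_le] at h1
    linarith
  have heM : c 1 ≤ c 0 + M := by
    have h1 := (hMNF (C ∩ C') φ₁ (φ₀ + π) (v 0) hW hN1 hNp h.h10).1
    rw [hs1, hflp, hv.le_iff_le] at h1
    linarith
  have hne0 : c 0 ≠ c 1 := by
    intro heq
    refine all_tips (φ := φ₀) h hM hv hvp hvE hs0 hwM (hwc 0) hw0 hwg ?_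
    intro x
    by_contra hcon
    have h1 := (hMNF (C ∩ C') φ₀ φ₁ (v x) hW hN0 hN1 h.h01).2 (Or.inl hcon)
    rw [hs0, hs1, heq] at h1
    exact lt_irrefl _ h1
  have hneM : c 1 ≠ c 0 + M := by
    intro heq
    refine all_tips (φ := φ₁) h hM hv hvp hvE hs1 hwM (hwc 1) hw0 hwg ?_
    intro x
    by_contra hcon
    have h1 := (hMNF (C ∩ C') φ₁ (φ₀ + π) (v x) hW hN1 hNp h.h10).2 (Or.inl hcon)
    rw [hs1, hflp, heq, hv.lt_iff_lt] at h1
    linarith
  have hne1 : c 1 - c 0 ≠ 1 := by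
    intro heq
    refine hnz (word_zero (c := c 0) (fun x => ?_) (hwc 0))
    have h1 := hw01 x
    rwa [heq] at h1
  have hneM1 : c 1 - c 0 ≠ M - 1 := by
    intro heq
    refine hnz (word_zero (c := c 0) (fun x => ?_) (hwc 0))
    have h1 := hw01 (x + 1)
    have h2 : x + 1 + (c 1 - c 0) = x + M := by rw [heq]; ring
    rw [h2, hwM] at h1
    exact h1.symm
  refine ⟨M, v, c 0, c 1, hv, hvp, hvE, hs0, hs1, ?_, ?_⟩
  · omega
  · omega

end Pool.XR2
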